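import Pool.Agent.W809.ZQ.Fin
import Pool.Agent.W577.ZQ.Add
import Pool.Agent.W382.ZQ.Trv
import Pool.Agent.W29.ZQ.Lc
import Pool.Agent.W494.ZQ.DCC
import Pool.Agent.W15.ZQ.Min
import Pool.Agent.W407.ZQ.AB1
import Pool.Agent.W414.ZQ.AB2
import Pool.Agent.W748.ZQ.Split
import Pool.Agent.W692.ZQ.Tr
import Pool.Agent.W863.ZQ.Pow
import Pool.Agent.W103.ZQ.Det
import Pool.Agent.W804.ZQ.Emb
import Pool.Agent.W486.ZQ.Nss
import Pool.Agent.W701.ZQ.Zdk
import Pool.Agent.W571.ZQ.Tor
import Pool.Agent.W571.ZQ.Fin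
import Pool.Agent.W451.ZQ.DIAG
import Pool.Agent.W287.ZQ.Nc

set_option autoImplicit false

/-!
# Subgroups of compact Lie groups with property `Z_m` are closed (positive answer to Q2)
-/

namespace Pool.Agent.Results.MP_3a9d0e_gt.CompactLieZm

open Topology Pool.Agent.W809.ZQ

/-- `X` has a base of sets that are both open and closed. -/
def ZeroDim (X : Type) [TopologicalSpace X] : Prop :=
  TopologicalSpace.IsTopologicalBasis {s : Set X | IsClopen s}

/-- Property `Z_m`: every closed zero-dimensional metrizable subgroup of `G` is discrete. -/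
def Zm (G : Type) [Group G] [TopologicalSpace G] : Prop :=
  ∀ N : Subgroup G, IsClosed (N : Set G) → ZeroDim N → TopologicalSpace.MetrizableSpace N →
    DiscreteTopology N

/-- Let `K` be a compact Lie group (of class `C^r` for some `r ≥ 1`, smooth and real analytic
included; not necessarily connected) and `G` a subgroup of `K` that satisfies `Z_m`. Then `G` is
closed in `K`. -/
theorem result : ∀ (E : Type) [NormedAddCommGroup E] [NormedSpace ℝ E] [FiniteDimensional ℝ E]
    (r : WithTop ℕ∞) (_ : 1 ≤ r)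
    (K : Type) [TopologicalSpace K] [T2Space K] [CompactSpace K] [ChartedSpace E K] [Group K]
    [LieGroup (modelWithCornersSelf ℝ E) r K] (G : Subgroup K),
    Zm G → IsClosed (G : Set K) := by
  intro E _ _ _ r hr K _ _ _ _ _ _ G hG
  have : LieGroup (modelWithCornersSelf ℝ E) 1 K := LieGroup.of_le hr
  have hADD : S_ADD := Pool.Agent.W577.ZQ.add
  have hTRV : S_TRV := Pool.Agent.W382.ZQ.trv
  have hLC : S_LC := Pool.Agent.W29.ZQ.Lc.lc hADD hTRV
  have hDCC : S_DCC := Pool.Agent.W494.ZQ.dcc hADD hLC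
  have hMIN : S_MIN := Pool.Agent.W15.ZQ.min hDCC
  have hDIAG : S_DIAG := Pool.Agent.W451.ZQ.diag
  have hAB1 : S_AB1 := Pool.Agent.W407.ZQ.ab1
  have hAB2 : S_AB2 := Pool.Agent.W414.ZQ.ab2
  have hSPLIT : S_SPLIT := Pool.Agent.W748.ZQ.split hADD
  have hTR : S_TR := Pool.Agent.W692.ZQ.tr hADD hSPLIT hLC
  have hNC : S_NC := Pool.Agent.W287.ZQ.nc hTR
  have hPOW : S_POW := Pool.Agent.W863.ZQ.pow hADD hLC
  have hTOR : S_TOR := Pool.Agent.W571.ZQ.tor
  have hDET : S_DET := Pool.Agent.W103.ZQ.det hDIAG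
  have hFIN : S_FIN := Pool.Agent.W571.ZQ.fin hDET hTOR
  exact final hMIN hDIAG hAB1 hAB2 hNC hPOW hFIN Pool.Agent.W804.ZQ.emb Pool.Agent.W486.ZQ.nss
    Pool.Agent.W701.ZQ.zdk E K G hG

end Pool.Agent.Results.MP_3a9d0e_gt.CompactLieZm
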